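import Pool.Agent.helper91.SI.Spec

set_option autoImplicit false

open Finset

namespace Pool.Agent.helper91.SI

open Pool.Agent.helper20.IG (IsIndepDom IsISet iGraph)

/-- the i-sets of the cycle with `3 m + 2` vertices -/
def CNV_S {V : Type} [DecidableEq V] [CommRing V] (m : ℕ) (x : V) : Finset V :=
  (range (m + 1)).image (fun j : ℕ => x + 1 + 3 * (j : V))

theorem CNV_mem {V : Type} [DecidableEq V] [CommRing V] (m : ℕ) (x y : V) :
    y ∈ CNV_S m x ↔ ∃ j : ℕ, j ≤ m ∧ x + 1 + 3 * (j : V) = y := by
  unfold CNV_S
  rw [mem_image]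
  constructor
  · rintro ⟨j, hj, h⟩
    exact ⟨j, by rw [mem_range] at hj; omega, h⟩
  · rintro ⟨j, hj, h⟩
    exact ⟨j, by rw [mem_range]; omega, h⟩

theorem CNV_lower {V : Type} [DecidableEq V] [Fintype V] [CommRing V] (G : SimpleGraph V)
    (hG : ∀ u v, G.Adj u v ↔ v = u + 1 ∨ u = v + 1) (T : Finset V) (D : Finset (V × ℕ))
    (hT : IsIndepDom G T)
    (hD : ∀ p ∈ T ×ˢ range 3, ∃ q ∈ D, q.1 + (q.2 : V) - 1 = p.1 + (p.2 : V) - 1) :
    Fintype.card V ≤ D.card := by
  have h : (univ : Finset V) ⊆ D.image (fun p => p.1 + (p.2 : V) - 1) := by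
    intro v _
    have h1 : ∃ p ∈ T ×ˢ range 3, p.1 + (p.2 : V) - 1 = v := by
      by_cases hv : v ∈ T
      · exact ⟨(v, 1), by simp [hv], by simp⟩
      · obtain ⟨u, hu, huv⟩ := hT.2 v hv
        rcases (hG u v).1 huv with h | h
        · refine ⟨(u, 2), by simp [hu], ?_⟩
          rw [h]
          push_cast
          ring
        · refine ⟨(u, 0), by simp [hu], ?_⟩
          rw [h]
          push_cast
          ring
    obtain ⟨p, hp, hpv⟩ := h1
    obtain ⟨q, hq, hqp⟩ := hD p hp
    exact mem_image.2 ⟨q, hq, hqp.trans hpv⟩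
  calc Fintype.card V = (univ : Finset V).card := card_univ.symm
    _ ≤ _ := card_le_card h
    _ ≤ D.card := card_image_le

theorem CNV_gen {V : Type} [DecidableEq V] [Fintype V] [CommRing V] (m : ℕ) (hm : 1 ≤ m)
    (hc : Fintype.card V = 3 * m + 2)
    (hs : ∀ v : V, ∃ r : ℕ, r < 3 * m + 2 ∧ (r : V) = v)
    (h00 : ((3 * m + 2 : ℕ) : V) = 0)
    (hi : ∀ a b : ℕ, a < 3 * m + 2 → b < 3 * m + 2 → (a : V) = (b : V) → a = b)
    (G : SimpleGraph V) (hG : ∀ u v, G.Adj u v ↔ v = u + 1 ∨ u = v + 1) :
    Nonempty (iGraph G ≃g G) := by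
  have h0 : 3 * (m : V) + 2 = 0 := by
    have := h00
    push_cast at this
    exact this
  -- small multiples are not zero
  have hz : ∀ a : ℕ, 0 < a → a < 3 * m + 2 → (a : V) ≠ 0 := by
    intro a h1 h2 h3
    have := hi a 0 h2 (by omega) (by rw [h3]; simp)
    omega
  have h1ne : ∀ i j : ℕ, i ≤ m → j ≤ m → 3 * (j : V) ≠ 3 * (i : V) + 1 := by
    intro i j h1 h2 h3
    have := hi (3 * j) (3 * i + 1) (by omega) (by omega) (by push_cast; exact h3)
    omega
  -- the set is an independent dominating set
  have hdom : ∀ x : V, IsIndepDom G (CNV_S m x) := by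
    intro x
    constructor
    · intro u hu v hv huv
      obtain ⟨i, hi1, hi2⟩ := (CNV_mem m x u).1 hu
      obtain ⟨j, hj1, hj2⟩ := (CNV_mem m x v).1 hv
      rcases (hG u v).1 huv with h | h
      · exact h1ne i j hi1 hj1 (by linear_combination hj2 - hi2 + h)
      · exact h1ne j i hj1 hi1 (by linear_combination hi2 - hj2 + h)
    · intro v hv
      obtain ⟨r, hr1, hr2⟩ := hs (v - x)
      have hr : r = 3 * (r / 3) + r % 3 := (Nat.div_add_mod r 3).symm
      have hr3 : r % 3 < 3 := Nat.mod_lt _ (by norm_num)
      have hrc : (r : V) = 3 * ((r / 3 : ℕ) : V) + ((r % 3 : ℕ) : V) := by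
        conv_lhs => rw [hr]
        push_cast
        ring
      rcases (by omega : r % 3 = 0 ∨ r % 3 = 1 ∨ r % 3 = 2) with h | h | h
      · refine ⟨x + 1 + 3 * ((r / 3 : ℕ) : V), (CNV_mem m x _).2 ⟨r / 3, by omega, rfl⟩, ?_⟩
        rw [hG]
        right
        rw [h] at hrc
        push_cast at hrc
        linear_combination hr2 - hrc
      · exfalso
        apply hv
        refine (CNV_mem m x _).2 ⟨r / 3, by omega, ?_⟩
        rw [h] at hrc
        push_cast at hrc
        linear_combination hr2 - hrc
      · refine ⟨x + 1 + 3 * ((r / 3 : ℕ) : V), (CNV_mem m x _).2 ⟨r / 3, by omega, rfl⟩, ?_⟩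
        rw [hG]
        left
        rw [h] at hrc
        push_cast at hrc
        linear_combination hrc - hr2
  have hcard : ∀ x : V, (CNV_S m x).card = m + 1 := by
    intro x
    unfold CNV_S
    rw [card_image_of_injOn, card_range]
    intro i hi1 j hj1 hij
    rw [mem_coe, mem_range] at hi1 hj1
    have h1 : x + 1 + 3 * (i : V) = x + 1 + 3 * (j : V) := hij
    have := hi (3 * i) (3 * j) (by omega) (by omega) (by push_cast; linear_combination h1)
    omega
  have hlow : ∀ T : Finset V, IsIndepDom G T → m + 1 ≤ T.card := by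
    intro T hT
    have := CNV_lower G hG T (T ×ˢ range 3) hT (fun p hp => ⟨p, hp, rfl⟩)
    rw [hc, card_product, card_range] at this
    omega
  have hset : ∀ x : V, IsISet G (CNV_S m x) := fun x =>
    ⟨hdom x, fun T hT => by rw [hcard]; exact hlow T hT⟩
  have hicard : ∀ S : Finset V, IsISet G S → S.card = m + 1 := by
    intro S hS
    have h1 := hS.2 _ (hdom 0)
    rw [hcard] at h1
    exact le_antisymm h1 (hlow S hS.1)
  -- only one gap of length two
  have huniq : ∀ S : Finset V, IsISet G S → ∀ s ∈ S, ∀ t ∈ S, s + 2 ∈ S → t + 2 ∈ S → s = t := by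
    intro S hS s hs1 t ht1 hs2 ht2
    by_contra hne
    have h1 := CNV_lower G hG S (((S ×ˢ range 3).erase (s + 2, 0)).erase (t + 2, 0)) hS.1 ?_
    · have hm1 : (s + 2, 0) ∈ S ×ˢ range 3 := by simp [hs2]
      have hm2 : (t + 2, 0) ∈ (S ×ˢ range 3).erase (s + 2, 0) := by
        rw [mem_erase]
        refine ⟨?_, by simp [ht2]⟩
        intro h
        have h2 : t + 2 = s + 2 := congrArg Prod.fst h
        exact hne (by linear_combination -h2)
      rw [card_erase_of_mem hm2, card_erase_of_mem hm1, card_product, card_range, hicard S hS,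
        hc] at h1
      omega
    · intro p hp
      by_cases h2 : p = (s + 2, 0)
      · refine ⟨(s, 2), ?_, ?_⟩
        · rw [mem_erase, mem_erase]
          refine ⟨?_, ?_, by simp [hs1]⟩
          · intro h
            have : (2 : ℕ) = 0 := congrArg Prod.snd h
            omega
          · intro h
            have : (2 : ℕ) = 0 := congrArg Prod.snd h
            omega
        · rw [h2]
          push_cast
          ring
      · by_cases h3 : p = (t + 2, 0)
        · refine ⟨(t, 2), ?_, ?_⟩
          · rw [mem_erase, mem_erase]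
            refine ⟨?_, ?_, by simp [ht1]⟩
            · intro h
              have : (2 : ℕ) = 0 := congrArg Prod.snd h
              omega
            · intro h
              have : (2 : ℕ) = 0 := congrArg Prod.snd h
              omega
          · rw [h3]
            push_cast
            ring
        · exact ⟨p, mem_erase.2 ⟨h3, mem_erase.2 ⟨h2, hp⟩⟩, rfl⟩
  -- next member
  have hnext : ∀ S : Finset V, IsISet G S → ∀ s ∈ S, s + 2 ∉ S → s + 3 ∈ S := by
    intro S hS s hs1 hs2
    have h1 : s + 1 ∉ S := fun h => hS.1.1 s hs1 _ h ((hG _ _).2 (Or.inl rfl))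
    obtain ⟨u, hu, huv⟩ := hS.1.2 _ hs2
    rcases (hG _ _).1 huv with h | h
    · exfalso
      apply h1
      have : s + 1 = u := by linear_combination h
      rw [this]
      exact hu
    · have : s + 3 = u := by linear_combination -h
      rw [this]
      exact hu
  have hexist : ∀ S : Finset V, IsISet G S → ∃ s ∈ S, s + 2 ∈ S := by
    intro S hS
    by_contra hno
    push Not at hno
    have hne : S.Nonempty := by
      rw [← card_pos, hicard S hS]
      omega
    obtain ⟨s, hs1⟩ := hne
    have hall : ∀ j : ℕ, s + 3 * (j : V) ∈ S := by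
      intro j
      induction j with
      | zero => simpa using hs1
      | succ j ih =>
        have h1 := hnext S hS _ ih (hno _ ih)
        have h2 : s + 3 * ((j + 1 : ℕ) : V) = s + 3 * (j : V) + 3 := by
          push_cast
          ring
        rw [h2]
        exact h1
    have h1 := hall (m + 1)
    have h2 : s + 3 * ((m + 1 : ℕ) : V) = s + 1 := by
      push_cast
      linear_combination h0
    rw [h2] at h1
    exact hS.1.1 s hs1 _ h1 ((hG _ _).2 (Or.inl rfl))
  have hstruct : ∀ S : Finset V, IsISet G S → ∃ x, CNV_S m x = S := by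
    intro S hS
    obtain ⟨s, hs1, hs2⟩ := hexist S hS
    refine ⟨s + 1, ?_⟩
    have hall : ∀ j : ℕ, j ≤ m → s + 1 + 1 + 3 * (j : V) ∈ S := by
      intro j
      induction j with
      | zero =>
        intro _
        have : s + 1 + 1 + 3 * ((0 : ℕ) : V) = s + 2 := by
          push_cast
          ring
        rw [this]
        exact hs2
      | succ j ih =>
        intro hj
        have h1 := ih (by omega)
        have h2 : s + 1 + 1 + 3 * (j : V) + 2 ∉ S := by
          intro h
          have h3 := huniq S hS _ hs1 _ h1 hs2 h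
          refine hz (3 * j + 2) (by omega) (by omega) ?_
          push_cast
          linear_combination -h3
        have h3 := hnext S hS _ h1 h2
        have h4 : s + 1 + 1 + 3 * ((j + 1 : ℕ) : V) = s + 1 + 1 + 3 * (j : V) + 3 := by
          push_cast
          ring
        rw [h4]
        exact h3
    apply eq_of_subset_of_card_le
    · intro y hy
      obtain ⟨j, hj1, hj2⟩ := (CNV_mem m _ y).1 hy
      rw [← hj2]
      exact hall j hj1
    · rw [hcard, hicard S hS]
  -- the two neighbours of x
  have hp1 : ∀ x : V, x + 1 ∈ CNV_S m x := fun x =>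
    (CNV_mem m x _).2 ⟨0, by omega, by push_cast; ring⟩
  have hm1 : ∀ x : V, x - 1 ∈ CNV_S m x := fun x =>
    (CNV_mem m x _).2 ⟨m, le_rfl, by linear_combination h0⟩
  have hinj : ∀ x y : V, CNV_S m x = CNV_S m y → x = y := by
    intro x y h
    have h1 := hm1 x
    have h2 := hp1 x
    rw [h] at h1 h2
    have h3 := huniq _ (hset y) _ h1 _ (hm1 y)
      (by have : x - 1 + 2 = x + 1 := by ring
          rw [this]; exact h2)
      (by have : y - 1 + 2 = y + 1 := by ring
          rw [this]; exact hp1 y)
    linear_combination h3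
  have hslide : ∀ x : V, CNV_S m (x + 3) = insert (x + 2) ((CNV_S m x).erase (x + 1)) := by
    intro x
    apply eq_of_subset_of_card_le
    · intro y hy
      obtain ⟨j, hj1, hj2⟩ := (CNV_mem m _ y).1 hy
      rw [mem_insert]
      rcases Nat.lt_or_ge j m with h | h
      · right
        rw [mem_erase]
        refine ⟨?_, (CNV_mem m x y).2 ⟨j + 1, by omega, ?_⟩⟩
        · intro h2
          refine hz (3 * (j + 1)) (by omega) (by omega) ?_
          push_cast
          linear_combination hj2 + h2
        · rw [← hj2]
          push_cast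
          ring
      · left
        have : j = m := by omega
        rw [this] at hj2
        linear_combination h0 - hj2
    · rw [hcard]
      refine (card_insert_le _ _).trans ?_
      rw [card_erase_of_mem (hp1 x), hcard]
      omega
  have hfwd : ∀ x y u : V, u ∈ CNV_S m x → CNV_S m y = insert (u + 1) ((CNV_S m x).erase u) →
      y = x + 3 := by
    intro x y u hu hY
    have h1 : u + 1 ∈ CNV_S m y := by
      rw [hY]
      exact mem_insert_self _ _
    have h2 : u ∉ CNV_S m y := fun h => (hdom y).1 u h _ h1 ((hG _ _).2 (Or.inl rfl))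
    have h3 : u - 1 ∉ CNV_S m y := by
      intro h
      rw [hY, mem_insert] at h
      rcases h with h | h
      · refine hz 2 (by omega) (by omega) ?_
        push_cast
        linear_combination -h
      · exact (hdom x).1 _ (mem_of_mem_erase h) u hu ((hG _ _).2 (Or.inl (by ring)))
    obtain ⟨z, hz1, hz2⟩ := (hdom y).2 _ h3
    rcases (hG _ _).1 hz2 with h | h
    · have hzu : z = u - 2 := by linear_combination -h
      rw [hzu, hY, mem_insert] at hz1
      rcases hz1 with h4 | h4
      · exfalso
        refine hz 3 (by omega) (by omega) ?_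
        push_cast
        linear_combination -h4
      · have h5 := mem_of_mem_erase h4
        have h6 := huniq _ (hset x) _ h5 _ (hm1 x)
          (by have : u - 2 + 2 = u := by ring
              rw [this]; exact hu)
          (by have : x - 1 + 2 = x + 1 := by ring
              rw [this]; exact hp1 x)
        have h7 : u = x + 1 := by linear_combination h6
        rw [h7] at hY
        apply hinj
        rw [hslide, hY]
        congr 1
        ring
    · exfalso
      apply h2
      have : u = z := by linear_combination -h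
      rw [this]
      exact hz1
  have hadj : ∀ x y : V, (iGraph G).Adj ⟨CNV_S m x, hset x⟩ ⟨CNV_S m y, hset y⟩ ↔
      (y = x + 3 ∨ x = y + 3) := by
    have hone : ∀ x : V, (iGraph G).Adj ⟨CNV_S m x, hset x⟩ ⟨CNV_S m (x + 3), hset (x + 3)⟩ := by
      intro x
      refine ⟨?_, x + 1, hp1 x, x + 2, ?_, (hG _ _).2 (Or.inl (by ring)), hslide x⟩
      · intro h
        have h1 := hinj _ _ (congrArg Subtype.val h)
        refine hz 3 (by omega) (by omega) ?_
        push_cast
        linear_combination -h1
      · show x + 2 ∈ CNV_S m (x + 3)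
        rw [hslide]
        exact mem_insert_self _ _
    intro x y
    constructor
    · rintro ⟨-, u, hu, v, hv, huv, hY⟩
      have hu' : u ∈ CNV_S m x := hu
      have hv' : v ∈ CNV_S m y := hv
      have hY' : CNV_S m y = insert v ((CNV_S m x).erase u) := hY
      rcases (hG _ _).1 huv with h | h
      · left
        rw [h] at hY'
        exact hfwd x y u hu' hY'
      · right
        have hvx : v ∉ CNV_S m x := fun h2 => (hdom x).1 u hu' v h2 huv
        have h3 : CNV_S m x = insert u ((CNV_S m y).erase v) := by
          rw [hY', erase_insert, insert_erase hu']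
          intro h4
          exact hvx (mem_of_mem_erase h4)
        rw [h] at h3
        exact hfwd y x v hv' h3
    · rintro (h | h)
      · subst h
        exact hone x
      · subst h
        exact (hone y).symm
  -- the isomorphism
  have h3inv : ∀ a : V, (m + 1 : V) * (3 * a) = a := by
    intro a
    linear_combination a * h0
  let F : V → {S : Finset V // IsISet G S} := fun i => ⟨CNV_S m (3 * i), hset _⟩
  have hF : Function.Bijective F := by
    constructor
    · intro i j hij
      have h1 : (3 : V) * i = 3 * j := hinj _ _ (congrArg Subtype.val hij)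
      rw [← h3inv i, h1, h3inv]
    · rintro ⟨S, hS⟩
      obtain ⟨x, hx⟩ := hstruct S hS
      refine ⟨(m + 1 : V) * x, ?_⟩
      apply Subtype.ext
      show CNV_S m (3 * ((m + 1 : V) * x)) = S
      rw [← hx]
      congr 1
      linear_combination x * h0
  refine ⟨(⟨Equiv.ofBijective F hF, ?_⟩ : G ≃g iGraph G).symm⟩
  intro i j
  show (iGraph G).Adj ⟨CNV_S m (3 * i), hset _⟩ ⟨CNV_S m (3 * j), hset _⟩ ↔ G.Adj i j
  rw [hadj, hG]
  constructor
  · rintro (h | h)
    · left
      rw [← h3inv j, h]
      linear_combination (i + 1) * h0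
    · right
      rw [← h3inv i, h]
      linear_combination (j + 1) * h0
  · rintro (h | h)
    · left
      rw [h]
      ring
    · right
      rw [h]
      ring

theorem CNV_adj (k : ℕ) (u v : Fin (k + 2)) :
    (SimpleGraph.cycleGraph (k + 2)).Adj u v ↔ v = u + 1 ∨ u = v + 1 := by
  rw [SimpleGraph.cycleGraph_adj, sub_eq_iff_eq_add, sub_eq_iff_eq_add, add_comm 1 v, add_comm 1 u]
  exact or_comm

open scoped Fin.CommRing in
theorem CNV : CNV_stmt := by
  intro n hn hn3
  obtain ⟨m, rfl⟩ : ∃ m, n = 3 * m + 2 := ⟨n / 3, by omega⟩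
  have hm : 1 ≤ m := by omega
  refine CNV_gen (V := Fin (3 * m + 2)) m hm (Fintype.card_fin _) ?_ ?_ ?_ _ (CNV_adj (3 * m))
  · intro v
    exact ⟨v.1, v.2, Fin.cast_val_eq_self v⟩
  · apply Fin.ext
    rw [Fin.val_natCast, Nat.mod_self]
    rfl
  · intro a b ha hb hab
    have h := congrArg Fin.val hab
    rw [Fin.val_natCast, Fin.val_natCast, Nat.mod_eq_of_lt ha, Nat.mod_eq_of_lt hb] at h
    exact h

end Pool.Agent.helper91.SI
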